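import Pool.Agent.H366R2.QA.Main5

/-!
The number of the integers up to `x` whose `5x+1` orbit is eventually periodic is at least
`x^(η₅ - ε)`, `η₅ = 0.6509186...`.
-/

set_option autoImplicit false

namespace Pool.Agent.Results.MP_d7ac36_nt.EtaLowerBound

open Pool.Agent.H366R2.QA

/-- There is a real number `η₅` with `0.6509 < η₅ < 0.65095` and `2^η₅ = 1 + 5^(η₅ - 1)` such that
for every `η < η₅` there is `c > 0` with `Q₅(x) ≥ c x^η` for all `x ≥ 1`, where `Q₅(x)` is the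
number of the integers `1 ≤ n ≤ x` whose `5x+1` orbit takes only finitely many values; in particular
the lower limit of `log Q₅(x) / log x` is at least `η₅`. -/
theorem result :
    ∃ η₅ : ℝ, 0.6509 < η₅ ∧ η₅ < 0.65095 ∧ (2 : ℝ) ^ η₅ = 1 + 5 ^ (η₅ - 1) ∧
      (∀ η : ℝ, η < η₅ → ∃ c : ℝ, 0 < c ∧ ∀ x : ℝ, 1 ≤ x →
        c * x ^ η ≤ ((Set.ncard {n : ℤ | 1 ≤ n ∧ (n : ℝ) ≤ x ∧ (Set.range fun k : ℕ =>
          (fun m : ℤ => if m % 2 = 0 then m / 2 else (5 * m + 1) / 2)^[k] n).Finite} : ℕ) : ℝ)) ∧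
      η₅ ≤ Filter.liminf (fun x : ℝ =>
        Real.log ((Set.ncard {n : ℤ | 1 ≤ n ∧ (n : ℝ) ≤ x ∧ (Set.range fun k : ℕ =>
          (fun m : ℤ => if m % 2 = 0 then m / 2 else (5 * m + 1) / 2)^[k] n).Finite} : ℕ) : ℝ)
          / Real.log x) Filter.atTop := by
  obtain ⟨η₅, h1, h2, h3⟩ := exists_eta
  have hsub : ∀ x : ℝ, {n : ℤ | 1 ≤ n ∧ (n : ℝ) ≤ x ∧ (Set.range fun k : ℕ =>
          (fun m : ℤ => if m % 2 = 0 then m / 2 else (5 * m + 1) / 2)^[k] n).Finite}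
        ⊆ {n : ℤ | |(n : ℝ)| ≤ x} := by
    intro x n hn
    have hn0 : (0 : ℝ) ≤ n := by
      have := hn.1
      exact_mod_cast (by omega : (0 : ℤ) ≤ n)
    show |(n : ℝ)| ≤ x
    rw [abs_of_nonneg hn0]
    exact hn.2.1
  have hpow : ∀ η : ℝ, η < η₅ → ∃ c : ℝ, 0 < c ∧ ∀ x : ℝ, 1 ≤ x →
      c * x ^ η ≤ ((Set.ncard {n : ℤ | 1 ≤ n ∧ (n : ℝ) ≤ x ∧ (Set.range fun k : ℕ =>
        (fun m : ℤ => if m % 2 = 0 then m / 2 else (5 * m + 1) / 2)^[k] n).Finite} : ℕ) : ℝ) := by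
    intro η hη
    obtain ⟨c, hc, h⟩ := five_pos hmain5 h1 h2 h3 hη
    refine ⟨c, hc, fun x hx => ?_⟩
    have h4 := h 1 (by norm_num) (by norm_num) x (by push_cast; exact hx)
    rw [Int.cast_one, div_one] at h4
    refine h4.trans ?_
    have h5 : {n : ℤ | 1 ≤ n ∧ (n : ℝ) ≤ x ∧ ∃ k : ℕ,
        (fun m : ℤ => if m % 2 = 0 then m / 2 else (5 * m + 1) / 2)^[k] n = 1}
        ⊆ {n : ℤ | 1 ≤ n ∧ (n : ℝ) ≤ x ∧ (Set.range fun k : ℕ =>
        (fun m : ℤ => if m % 2 = 0 then m / 2 else (5 * m + 1) / 2)^[k] n).Finite} := by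
      rintro n ⟨hn1, hn2, k, hk⟩
      exact ⟨hn1, hn2, orbit_finite (k := k) (p := 5) (by norm_num) hk (by decide)⟩
    exact_mod_cast Set.ncard_le_ncard h5 ((finite_abs_le x).subset (hsub x))
  refine ⟨η₅, h1, h2, h3, hpow, ?_⟩
  refine (le_liminf_of_pow ?_ ?_).2
  · intro x hx
    refine le_trans ?_ (ncard_abs_le (by linarith))
    exact_mod_cast Set.ncard_le_ncard (hsub x) (finite_abs_le x)
  · intro η hη
    obtain ⟨c, hc, h⟩ := hpow η hη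
    exact ⟨c, 1, hc, h⟩

end Pool.Agent.Results.MP_d7ac36_nt.EtaLowerBound
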